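import Pool.Agent.K1H5.PLN.Stm

set_option autoImplicit false

/-! # Local structure at a simple point of the frontier -/

namespace Pool.Agent.K1H37.PLN

open Matrix Topology Filter Pool.Agent.K1H5.PLN

variable {n : ℕ}

theorem line {x : V n} {P : V n → Prop} (h : ∀ᶠ y in 𝓝 x, P y) (w : V n) :
    ∃ ε : ℝ, 0 < ε ∧ ∀ s : ℝ, |s| ≤ ε → P (x + s • w) := by
  have hc : Tendsto (fun s : ℝ => x + s • w) (𝓝 0) (𝓝 x) := by
    have h1 : Continuous (fun s : ℝ => x + s • w) := by fun_prop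
    have h0 := h1.tendsto 0
    simpa using h0
  have h1 := hc.eventually h
  rw [Metric.eventually_nhds_iff] at h1
  obtain ⟨ε, hε, h2⟩ := h1
  refine ⟨ε / 2, by positivity, fun s hs => h2 ?_⟩
  rw [Real.dist_eq, sub_zero]
  linarith

theorem dot_pos {a : V n} (ha : a ≠ 0) : 0 < a ⬝ᵥ a := by
  refine lt_of_le_of_ne (Finset.sum_nonneg fun i _ => mul_self_nonneg (a i)) ?_
  intro h
  exact ha (dotProduct_self_eq_zero.1 h.symm)

theorem cont_aff (M : Matrix (Fin n) (Fin n) ℝ) (b : V n) :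
    Continuous (fun y : V n => M *ᵥ y + b) := by
  fun_prop

theorem mat_ext {M N : Matrix (Fin n) (Fin n) ℝ} (h : ∀ w : V n, M *ᵥ w = N *ᵥ w) : M = N :=
  Matrix.mulVec_injective (funext h)

/-- an affine map which is the identity near a point is the identity -/
theorem rigid {M : Matrix (Fin n) (Fin n) ℝ} {b y0 : V n} (h : ∀ᶠ y in 𝓝 y0, M *ᵥ y + b = y) :
    M = 1 ∧ b = 0 := by
  have h0 := h.self_of_nhds
  have hM : ∀ w : V n, M *ᵥ w = w := by
    intro w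
    obtain ⟨ε, hε, h1⟩ := line h w
    have h2 := h1 ε (abs_of_pos hε).le
    rw [mulVec_add, mulVec_smul] at h2
    have h3 : ε • (M *ᵥ w) = ε • w := by
      have e1 : ε • (M *ᵥ w) = (M *ᵥ y0 + ε • (M *ᵥ w) + b) - (M *ᵥ y0 + b) := by abel
      rw [e1, h2, h0]
      abel
    exact smul_right_injective _ hε.ne' h3
  refine ⟨mat_ext fun w => by rw [hM, one_mulVec], ?_⟩
  rw [hM] at h0
  exact add_eq_left.1 h0

theorem ev_sub (l : V n × ℝ) (x y : V n) : ev l y = ev l x + l.1 ⬝ᵥ (y - x) := by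
  unfold ev
  rw [dotProduct_sub]
  ring

/-- one side of the hyperplane -/
theorem side {A : Subring ℝ} {f : V n ≃ₜ V n} {Λ : Finset (V n × ℝ)}
    {G : Finset (Matrix (Fin n) (Fin n) ℝ × V n)} (hD : Data A f Λ G) {x a : V n} (ha : a ≠ 0)
    (hs : ∀ l ∈ Λ, ev l x = 0 → ∃ c : ℝ, c ≠ 0 ∧ l.1 = c • a) :
    ∃ g ∈ G, ∀ᶠ y in 𝓝 x, 0 ≤ a ⬝ᵥ (y - x) → f y = g.1 *ᵥ y + g.2 := by
  have haa := dot_pos ha
  have hall : ∀ᶠ y in 𝓝 x, ∀ l ∈ Λ, ev l x ≠ 0 → 0 < ev l x * ev l y := by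
    rw [Filter.eventually_all_finset]
    intro l _
    by_cases hl : ev l x = 0
    · exact Filter.Eventually.of_forall fun y h => absurd hl h
    · have hc : Continuous (fun y : V n => ev l x * ev l y) := by
        unfold ev dotProduct
        fun_prop
      have h1 : (0 : ℝ) < ev l x * ev l x := mul_self_pos.2 hl
      have h2 := hc.continuousAt.eventually (lt_mem_nhds (a := (0 : ℝ)) (b := ev l x * ev l x) h1)
      filter_upwards [h2] with y hy _
      exact hy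
  obtain ⟨ε, hε, hline⟩ := line hall a
  have hz := hline ε (abs_of_pos hε).le
  set z := x + ε • a with hzdef
  have haz : 0 < a ⬝ᵥ (z - x) := by
    rw [hzdef, add_sub_cancel_left, dotProduct_smul, smul_eq_mul]
    positivity
  have hpos : ∀ y : V n, (∀ l ∈ Λ, ev l x ≠ 0 → 0 < ev l x * ev l y) → 0 < a ⬝ᵥ (y - x) →
      ∀ l ∈ Λ, 0 < ev l z * ev l y := by
    intro y hy hay l hl
    by_cases h0 : ev l x = 0
    · obtain ⟨c, hc, hcl⟩ := hs l hl h0
      have e1 : ev l z = c * (a ⬝ᵥ (z - x)) := by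
        rw [ev_sub l x z, h0, hcl, smul_dotProduct, smul_eq_mul, zero_add]
      have e2 : ev l y = c * (a ⬝ᵥ (y - x)) := by
        rw [ev_sub l x y, h0, hcl, smul_dotProduct, smul_eq_mul, zero_add]
      rw [e1, e2]
      have hc2 : 0 < c * c := mul_self_pos.2 hc
      have : c * a ⬝ᵥ (z - x) * (c * a ⬝ᵥ (y - x)) =
          (c * c) * ((a ⬝ᵥ (z - x)) * (a ⬝ᵥ (y - x))) := by ring
      rw [this]
      positivity
    · have h1 := hz l hl h0
      have h2 := hy l hl h0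
      have h3 : 0 < ev l x * ev l x := mul_self_pos.2 h0
      have h4 : 0 < (ev l x * ev l x) * (ev l z * ev l y) := by
        have : (ev l x * ev l x) * (ev l z * ev l y) = (ev l x * ev l z) * (ev l x * ev l y) := by
          ring
        rw [this]
        exact mul_pos h1 h2
      exact (mul_pos_iff_of_pos_left h3).1 h4
  have hzne : ∀ l ∈ Λ, ev l z ≠ 0 := by
    intro l hl h0
    have := hpos z hz haz l hl
    rw [h0, mul_zero] at this
    exact lt_irrefl _ this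
  obtain ⟨g, hg, hcell⟩ := hD.2.2 z hzne
  refine ⟨g, hg, ?_⟩
  have hopen : ∀ᶠ y in 𝓝 x, 0 < a ⬝ᵥ (y - x) → f y = g.1 *ᵥ y + g.2 := by
    filter_upwards [hall] with y hy hay
    exact hcell y (hpos y hy hay)
  filter_upwards [eventually_eventually_nhds.2 hopen] with y hy hay
  have ht : Tendsto (fun s : ℝ => y + s • a) (𝓝[>] 0) (𝓝 y) := by
    have h1 : Continuous (fun s : ℝ => y + s • a) := by fun_prop
    have h0 := (h1.tendsto 0).mono_left (nhdsWithin_le_nhds (s := Set.Ioi 0))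
    simpa using h0
  have h1 := (f.continuous.tendsto y).comp ht
  have h2 := ((cont_aff g.1 g.2).tendsto y).comp ht
  refine tendsto_nhds_unique_of_eventuallyEq h1 h2 ?_
  filter_upwards [ht.eventually hy, self_mem_nhdsWithin] with s hs1 hs2
  apply hs1
  have hs3 : (0 : ℝ) < s := hs2
  have e : a ⬝ᵥ (y + s • a - x) = a ⬝ᵥ (y - x) + s * (a ⬝ᵥ a) := by
    rw [add_sub_right_comm, dotProduct_add, dotProduct_smul, smul_eq_mul]
  rw [e]
  have := mul_pos hs3 haa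
  linarith

theorem t_LOC : S_LOC := by
  intro n h t Λ Λ' G G' hh ht x hx hsimple
  have hUo : IsOpen (fixInt h) := isOpen_interior
  have hxU : x ∉ fixInt h := by
    intro hxU
    have := hx.2
    rw [hUo.interior_eq] at this
    exact this hxU
  have hxc : x ∈ closure (fixInt h) := hx.1
  have hnotid : ¬ ∀ᶠ y in 𝓝 x, h y = y := fun hc => hxU (mem_interior_iff_mem_nhds.2 hc)
  -- points of `U` near `x`
  have hnear : ∀ P : V n → Prop, (∀ᶠ y in 𝓝 x, P y) → ∃ y ∈ fixInt h, ∀ᶠ z in 𝓝 y, P z := by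
    intro P hP
    have h1 := mem_closure_iff_frequently.1 hxc
    obtain ⟨y, hy1, hy2⟩ := (h1.and_eventually (eventually_eventually_nhds.2 hP)).exists
    exact ⟨y, hy1, hy2⟩
  have hfix : ∀ y ∈ fixInt h, ∀ᶠ z in 𝓝 y, h z = z := fun y hy => mem_interior_iff_mem_nhds.1 hy
  -- a hyperplane through `x`
  obtain ⟨l0, hl0, hl0x⟩ : ∃ l0 ∈ Λ, ev l0 x = 0 := by
    by_contra hcon
    push Not at hcon
    obtain ⟨g, hg, hcell⟩ := hh.2.2 x hcon
    have haff : ∀ᶠ y in 𝓝 x, h y = g.1 *ᵥ y + g.2 := by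
      have hall : ∀ᶠ y in 𝓝 x, ∀ l ∈ Λ, 0 < ev l x * ev l y := by
        rw [Filter.eventually_all_finset]
        intro l hl
        have hc : Continuous (fun y : V n => ev l x * ev l y) := by
          unfold ev dotProduct
          fun_prop
        have h1 : (0 : ℝ) < ev l x * ev l x := mul_self_pos.2 (hcon l hl)
        exact hc.continuousAt.eventually (lt_mem_nhds (a := (0 : ℝ)) (b := ev l x * ev l x) h1)
      filter_upwards [hall] with y hy
      exact hcell y hy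
    obtain ⟨y, hy1, hy2⟩ := hnear _ haff
    have h3 : ∀ᶠ z in 𝓝 y, g.1 *ᵥ z + g.2 = z := by
      filter_upwards [hy2, hfix y hy1] with z hz1 hz2
      rw [← hz1, hz2]
    obtain ⟨h4, h5⟩ := rigid h3
    apply hnotid
    filter_upwards [haff] with y hy
    rw [hy, h4, h5, one_mulVec, add_zero]
  have ha0 : l0.1 ≠ 0 := hh.1 l0 hl0
  have hprop : ∀ (e : ℝ), e ≠ 0 → ∀ l ∈ (↑Λ ∪ ↑Λ' : Set (V n × ℝ)), ev l x = 0 →
      ∃ c : ℝ, c ≠ 0 ∧ l.1 = c • (e • l0.1) := by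
    intro e he l hl hlx
    obtain ⟨c, hc, hcl⟩ := hsimple l0 (Or.inl hl0) l hl hl0x hlx
    refine ⟨c / e, div_ne_zero hc he, ?_⟩
    rw [hcl, smul_smul, div_mul_cancel₀ _ he]
  have hsideh : ∀ e : ℝ, e ≠ 0 → ∃ g ∈ G, ∀ᶠ y in 𝓝 x, 0 ≤ (e • l0.1) ⬝ᵥ (y - x) →
      h y = g.1 *ᵥ y + g.2 := fun e he =>
    side hh (smul_ne_zero he ha0) fun l hl hlx => hprop e he l (Or.inl hl) hlx
  have hsidet : ∀ e : ℝ, e ≠ 0 → ∃ g ∈ G', ∀ᶠ y in 𝓝 x, 0 ≤ (e • l0.1) ⬝ᵥ (y - x) →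
      t y = g.1 *ᵥ y + g.2 := fun e he =>
    side ht (smul_ne_zero he ha0) fun l hl hlx => hprop e he l (Or.inr hl) hlx
  -- the side of the identity
  obtain ⟨e, he, hid⟩ : ∃ e : ℝ, e ≠ 0 ∧ ∀ᶠ y in 𝓝 x, (e • l0.1) ⬝ᵥ (y - x) ≤ 0 → h y = y := by
    obtain ⟨g1, hg1, hs1⟩ := hsideh 1 one_ne_zero
    obtain ⟨g2, hg2, hs2⟩ := hsideh (-1) (by norm_num)
    obtain ⟨y, hy1, hy2⟩ := hnear _ (hs1.and hs2)
    -- a point off the hyperplane
    have hy3 : ∀ᶠ z in 𝓝 y, ((0 ≤ ((1 : ℝ) • l0.1) ⬝ᵥ (z - x) → h z = g1.1 *ᵥ z + g1.2) ∧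
        (0 ≤ ((-1 : ℝ) • l0.1) ⬝ᵥ (z - x) → h z = g2.1 *ᵥ z + g2.2)) ∧ h z = z :=
      hy2.and (hfix y hy1)
    obtain ⟨z, hz1, hz2⟩ : ∃ z : V n, l0.1 ⬝ᵥ (z - x) ≠ 0 ∧ ∀ᶠ w in 𝓝 z,
        ((0 ≤ ((1 : ℝ) • l0.1) ⬝ᵥ (w - x) → h w = g1.1 *ᵥ w + g1.2) ∧
        (0 ≤ ((-1 : ℝ) • l0.1) ⬝ᵥ (w - x) → h w = g2.1 *ᵥ w + g2.2)) ∧ h w = w := by
      by_cases h0 : l0.1 ⬝ᵥ (y - x) = 0
      · obtain ⟨ε, hε, h1⟩ := line (eventually_eventually_nhds.2 hy3) l0.1
        refine ⟨y + ε • l0.1, ?_, h1 ε (abs_of_pos hε).le⟩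
        rw [add_sub_right_comm, dotProduct_add, h0, dotProduct_smul, smul_eq_mul, zero_add]
        exact (mul_pos hε (dot_pos ha0)).ne'
      · exact ⟨y, h0, hy3⟩
    have hcontl : Continuous (fun w : V n => l0.1 ⬝ᵥ (w - x)) := by
      unfold dotProduct
      fun_prop
    rcases lt_or_gt_of_ne hz1 with hneg | hpos
    · -- negative side: `g2` is the identity
      refine ⟨1, one_ne_zero, ?_⟩
      have h3 : ∀ᶠ w in 𝓝 z, g2.1 *ᵥ w + g2.2 = w := by
        filter_upwards [hz2, hcontl.continuousAt.eventually (gt_mem_nhds hneg)] with w hw1 hw2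
        rw [← hw1.1.2 ?_, hw1.2]
        rw [smul_dotProduct, smul_eq_mul]
        linarith
      obtain ⟨h4, h5⟩ := rigid h3
      filter_upwards [hs2] with w hw1 hw2
      rw [hw1 ?_, h4, h5, one_mulVec, add_zero]
      rw [smul_dotProduct, smul_eq_mul] at hw2 ⊢
      linarith
    · refine ⟨-1, by norm_num, ?_⟩
      have h3 : ∀ᶠ w in 𝓝 z, g1.1 *ᵥ w + g1.2 = w := by
        filter_upwards [hz2, hcontl.continuousAt.eventually (lt_mem_nhds hpos)] with w hw1 hw2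
        rw [← hw1.1.1 ?_, hw1.2]
        rw [smul_dotProduct, smul_eq_mul]
        linarith
      obtain ⟨h4, h5⟩ := rigid h3
      filter_upwards [hs1] with w hw1 hw2
      rw [hw1 ?_, h4, h5, one_mulVec, add_zero]
      rw [smul_dotProduct, smul_eq_mul] at hw2 ⊢
      linarith
  set a : V n := e • l0.1 with hadef
  have ha : a ≠ 0 := smul_ne_zero he ha0
  have haa := dot_pos ha
  obtain ⟨g, hgG, hg⟩ := hsideh e he
  obtain ⟨g', hgG', hg'⟩ := hsidet e he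
  rw [← hadef] at hg hg'
  have hx0 : a ⬝ᵥ (x - x) = 0 := by rw [sub_self, dotProduct_zero]
  have hxx : h x = x := hid.self_of_nhds hx0.le
  have hxM : x = g.1 *ᵥ x + g.2 := by
    rw [← hg.self_of_nhds hx0.ge, hxx]
  set v : V n := (a ⬝ᵥ a)⁻¹ • (g.1 *ᵥ a - a) with hv
  have hperp : ∀ w : V n, a ⬝ᵥ w = 0 → g.1 *ᵥ w = w := by
    intro w hw
    obtain ⟨ε, hε, h1⟩ := line (hid.and hg) w
    obtain ⟨h2, h3⟩ := h1 ε (abs_of_pos hε).le
    have e1 : a ⬝ᵥ (x + ε • w - x) = 0 := by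
      rw [add_sub_cancel_left, dotProduct_smul, hw, smul_zero]
    have h4 := h2 e1.le
    have h5 := h3 e1.ge
    rw [h4, mulVec_add, mulVec_smul] at h5
    have h6 : ε • (g.1 *ᵥ w) = ε • w := by
      have e2 : ε • (g.1 *ᵥ w) = (g.1 *ᵥ x + ε • (g.1 *ᵥ w) + g.2) - (g.1 *ᵥ x + g.2) := by abel
      rw [e2, ← h5, ← hxM]
      abel
    exact smul_right_injective _ hε.ne' h6
  have hMw : ∀ w : V n, g.1 *ᵥ w = w + (a ⬝ᵥ w) • v := by
    intro w
    set c : ℝ := (a ⬝ᵥ w) * (a ⬝ᵥ a)⁻¹ with hc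
    have h1 : a ⬝ᵥ (w - c • a) = 0 := by
      rw [dotProduct_sub, dotProduct_smul, smul_eq_mul, hc, mul_assoc, inv_mul_cancel₀ haa.ne',
        mul_one, sub_self]
    have h2 := hperp _ h1
    rw [mulVec_sub, mulVec_smul] at h2
    have h3 : g.1 *ᵥ w = w + (c • (g.1 *ᵥ a) - c • a) := by
      have e3 : g.1 *ᵥ w = (g.1 *ᵥ w - c • (g.1 *ᵥ a)) + c • (g.1 *ᵥ a) := by abel
      rw [e3, h2]
      abel
    rw [h3, ← smul_sub, hc, mul_smul]
  have hpos : ∀ᶠ y in 𝓝 x, 0 ≤ a ⬝ᵥ (y - x) → h y = y + (a ⬝ᵥ (y - x)) • v := by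
    filter_upwards [hg] with y hy hay
    rw [hy hay]
    have e1 : g.1 *ᵥ y + g.2 = g.1 *ᵥ (y - x) + (g.1 *ᵥ x + g.2) := by
      rw [mulVec_sub]
      abel
    rw [e1, ← hxM, hMw]
    abel
  have hv0 : v ≠ 0 := by
    intro hv0
    apply hnotid
    filter_upwards [hid, hpos] with y hy1 hy2
    rcases le_total (a ⬝ᵥ (y - x)) 0 with h1 | h1
    · exact hy1 h1
    · rw [hy2 h1, hv0, smul_zero, add_zero]
  have hav : 0 < 1 + a ⬝ᵥ v := by
    have hcont : ∀ᶠ y in 𝓝 x, (a ⬝ᵥ (h y - x) ≤ 0 → h (h y) = h y) := by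
      have h1 : Tendsto h (𝓝 x) (𝓝 x) := by
        have := h.continuous.tendsto x
        rwa [hxx] at this
      exact h1.eventually hid
    obtain ⟨ε, hε, h1⟩ := line (hcont.and hpos) a
    obtain ⟨h2, h3⟩ := h1 ε (abs_of_pos hε).le
    set y := x + ε • a with hy
    have e1 : a ⬝ᵥ (y - x) = ε * (a ⬝ᵥ a) := by
      rw [hy, add_sub_cancel_left, dotProduct_smul, smul_eq_mul]
    have e2 : 0 < a ⬝ᵥ (y - x) := by
      rw [e1]
      positivity
    have h4 := h3 e2.le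
    have h5 : 0 < a ⬝ᵥ (h y - x) := by
      by_contra hcon
      have h6 := h.injective (h2 (not_lt.1 hcon))
      rw [h6] at h4
      have h7 := (add_eq_left.1 h4.symm)
      rcases smul_eq_zero.1 h7 with h8 | h8
      · exact e2.ne' h8
      · exact hv0 h8
    rw [h4, add_sub_right_comm, dotProduct_add, dotProduct_smul, smul_eq_mul] at h5
    have h6 : 0 < (a ⬝ᵥ (y - x)) * (1 + a ⬝ᵥ v) := by linarith
    exact (mul_pos_iff_of_pos_left e2).1 h6
  refine ⟨a, v, g'.1, g'.2, ⟨ha, hv0, hav, hid.and hpos⟩, ⟨g, hgG, ?_⟩, hg'⟩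
  apply mat_ext
  intro w
  rw [hMw, add_mulVec, one_mulVec, vecMulVec_mulVec]
  congr 1
  ext i
  simp [mul_comm]

end Pool.Agent.K1H37.PLN
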